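import Mathlib
import Pool.Agent.V11108.PD

/-!
# MP_2aac2f_an, Q1: a system with linear order of growth and hyperspace map of zero entropy

The one-sided period doubling subshift has `o(T) = [n]`, and the map it induces on the nonempty
closed subsets has topological entropy zero.
-/

set_option autoImplicit false

namespace Pool.Agent.Results.MP_2aac2f_an.PeriodDoubling

open Filter Topology TopologicalSpace Set

/-- `Span(T, n, ε)`: the least cardinality of a set `E` such that every `x` has some `y ∈ E` with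
`d(T^i x, T^i y) < ε` for all `i < n`. -/
noncomputable def span {X : Type*} [MetricSpace X] (T : X → X) (n : ℕ) (ε : ℝ) : ℕ :=
  sInf {k | ∃ E : Finset X, E.card = k ∧ ∀ x, ∃ y ∈ E, ∀ i < n, dist (T^[i] x) (T^[i] y) < ε}

/-- `[a] ≤ [b]` for orders of growth (sequences indexed by `n ≥ 1`). -/
def Dom (a b : ℕ → ℝ) : Prop := ∃ C : ℝ, ∀ n, 1 ≤ n → a n ≤ C * b n

/-- `o(T) = [b]`: the class `[b]` is the least upper bound of the classes `[Span(T, n, ε)]`, `ε > 0`
(this is what the supremum in the Dedekind-MacNeille completion being the class `[b]` means). -/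
def HasOrder {X : Type*} [MetricSpace X] (T : X → X) (b : ℕ → ℝ) : Prop :=
  (∀ ε : ℝ, 0 < ε → Dom (fun n => span T n ε) b) ∧
  ∀ c : ℕ → ℝ, Monotone c → (∀ n, 0 ≤ c n) → (∀ ε : ℝ, 0 < ε → Dom (fun n => span T n ε) c) → Dom b c

/-- Topological entropy. -/
noncomputable def entropy {X : Type*} [MetricSpace X] (T : X → X) : ENNReal :=
  ⨆ ε : Ioi (0 : ℝ), limsup (fun n : ℕ => ENNReal.ofReal (Real.log (span T n ε) / n)) atTop

/-- The induced map on the space of nonempty compact subsets with the Hausdorff metric. -/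
def hyper {X : Type*} [MetricSpace X] (T : X → X) (hT : Continuous T) :
    NonemptyCompacts X → NonemptyCompacts X := fun W => W.map T hT

theorem span_le_ncard {X α : Type*} [MetricSpace X] [Nonempty X] (T : X → X) (n : ℕ) (ε : ℝ)
    (f : X → α) (hf : (range f).Finite)
    (h : ∀ x y, f x = f y → ∀ i < n, dist (T^[i] x) (T^[i] y) < ε) :
    span T n ε ≤ (range f).ncard := by
  classical
  have h1 : (hf.toFinset.image (Function.invFun f)).card ∈ {k | ∃ E : Finset X, E.card = k ∧
      ∀ x, ∃ y ∈ E, ∀ i < n, dist (T^[i] x) (T^[i] y) < ε} :=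
    ⟨_, rfl, fun x => ⟨Function.invFun f (f x), Finset.mem_image_of_mem _ (by simp),
      h _ _ (Function.invFun_eq ⟨x, rfl⟩).symm⟩⟩
  exact (Nat.sInf_le h1).trans
    (Finset.card_image_le.trans (le_of_eq (ncard_eq_toFinset_card _ hf).symm))

theorem exists_span {X : Type*} [MetricSpace X] (T : X → X) (n : ℕ) (ε : ℝ)
    (h : ∃ E : Finset X, ∀ x, ∃ y ∈ E, ∀ i < n, dist (T^[i] x) (T^[i] y) < ε) :
    ∃ E : Finset X, E.card = span T n ε ∧ ∀ x, ∃ y ∈ E, ∀ i < n, dist (T^[i] x) (T^[i] y) < ε := by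
  obtain ⟨E, hE⟩ := h
  exact Nat.sInf_mem (s := {k | ∃ E : Finset X, E.card = k ∧ ∀ x, ∃ y ∈ E, ∀ i < n,
    dist (T^[i] x) (T^[i] y) < ε}) ⟨E.card, E, rfl, hE⟩

/-- the full one-sided shift space -/
def Y : Type := ℕ → Bool

noncomputable instance : MetricSpace Y := PiNat.metricSpace (E := fun _ => Bool)

instance : CompactSpace Y := inferInstanceAs (CompactSpace (ℕ → Bool))

theorem dist_le_iff (x y : Y) (m : ℕ) : dist x y ≤ (1 / 2 : ℝ) ^ m ↔ ∀ j < m, x j = y j := by
  have := PiNat.mem_cylinder_iff_dist_le (E := fun _ => Bool) (x := y) (y := x) (n := m)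
  exact this.symm.trans PiNat.mem_cylinder_iff

open Pool.Agent.V11108.PD (a a_even a_odd nohole hole wd pat hc count pat_count hc_bound)

/-- the period doubling subshift -/
def XS : Set Y := {x | ∀ L : ℕ, ∃ z : ℕ, ∀ j < L, x j = a (z + j)}

def X : Type := XS

noncomputable instance : MetricSpace X := inferInstanceAs (MetricSpace XS)

theorem XS_closed : IsClosed XS := by
  have : XS = ⋂ L : ℕ, (fun (x : ℕ → Bool) (j : Fin L) => x j) ⁻¹' (range (wd L)) := by
    ext x
    refine Iff.trans ?_ mem_iInter.symm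
    refine forall_congr' fun L => exists_congr fun z => ?_
    constructor
    · intro h; funext j; exact (h j j.2).symm
    · intro h j hj; exact (congrFun h ⟨j, hj⟩).symm
  rw [this]
  refine isClosed_iInter fun L => ?_
  have hc : Continuous (fun (x : ℕ → Bool) (j : Fin L) => x j) :=
    continuous_pi fun j => continuous_apply (j : ℕ)
  exact (isClosed_discrete _).preimage hc

instance : CompactSpace X := isCompact_iff_compactSpace.mp XS_closed.isCompact

/-- the point coded by `z` -/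
def pt (z : ℕ) : X := ⟨fun j => a (z + j), fun _ => ⟨z, fun _ _ => rfl⟩⟩

instance : Nonempty X := ⟨pt 0⟩

/-- the shift -/
def T (x : X) : X := ⟨fun j => x.1 (j + 1), fun L => by
  obtain ⟨z, hz⟩ := x.2 (L + 1)
  refine ⟨z + 1, fun j hj => ?_⟩
  show x.1 (j + 1) = _
  rw [hz (j + 1) (by omega)]
  congr 1
  omega⟩

theorem T_iter (n : ℕ) (x : X) (j : ℕ) : (T^[n] x).1 j = x.1 (n + j) := by
  induction n generalizing j with
  | zero => simp
  | succ n ih =>
    rw [Function.iterate_succ_apply']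
    show (T^[n] x).1 (j + 1) = _
    rw [ih, show n + (j + 1) = n + 1 + j by omega]

theorem continuous_T : Continuous T := by
  have h1 : Continuous (fun (x : ℕ → Bool) (j : ℕ) => x (j + 1)) :=
    continuous_pi fun j => continuous_apply (j + 1)
  have h2 : Continuous (fun x : X => ((fun j => x.1 (j + 1) : ℕ → Bool) : Y)) :=
    h1.comp continuous_subtype_val
  exact h2.subtype_mk _

theorem dist_X (x y : X) (m : ℕ) : dist x y ≤ (1 / 2 : ℝ) ^ m ↔ ∀ j < m, x.1 j = y.1 j :=
  dist_le_iff x.1 y.1 m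

/-- prefix -/
def pre (L : ℕ) (x : X) : Fin L → Bool := fun j => x.1 j

theorem pre_mem (L : ℕ) (x : X) : ∃ z, pre L x = wd L z := by
  obtain ⟨z, hz⟩ := x.2 L
  exact ⟨z, funext fun j => hz j j.2⟩

theorem exists_m {ε : ℝ} (hε : 0 < ε) : ∃ m : ℕ, (1 / 2 : ℝ) ^ m < ε :=
  exists_pow_lt_of_lt_one hε (by norm_num)

theorem span_T_le (n m : ℕ) {ε : ℝ} (hm : (1 / 2 : ℝ) ^ m < ε) : span T n ε ≤ (range (wd (n + m))).ncard := by
  refine (span_le_ncard T n ε (pre (n + m)) (toFinite _) ?_).trans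
    (ncard_le_ncard ?_ (toFinite _))
  · intro x y h i hi
    refine lt_of_le_of_lt ((dist_X _ _ m).mpr fun j hj => ?_) hm
    rw [T_iter, T_iter]
    exact congrFun h ⟨i + j, by omega⟩
  · rintro _ ⟨x, rfl⟩
    obtain ⟨z, hz⟩ := pre_mem (n + m) x
    exact ⟨z, hz.symm⟩

theorem words_le (L k : ℕ) (hk : L ≤ 2 ^ k) : (range (wd L)).ncard ≤ 2 * 2 ^ k := by
  have := count (wd L) (γ := Fin (2 ^ k) × Bool)
    (fun z => (⟨z % 2 ^ k, Nat.mod_lt _ (by positivity)⟩, a (z / 2 ^ k))) ?_
  · refine this.trans (le_of_eq ?_)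
    rw [Nat.card_prod]; simp [mul_comm]
  · intro z z' h
    simp only [Prod.mk.injEq, Fin.mk.injEq] at h
    obtain ⟨h1, h2⟩ := h
    funext ⟨j, hj⟩
    show a (z + j) = a (z' + j)
    have e1 := Nat.div_add_mod z (2 ^ k)
    have e2 := Nat.div_add_mod z' (2 ^ k)
    rw [← h1] at e2
    have hl : z % 2 ^ k < 2 ^ k := Nat.mod_lt _ (by positivity)
    set ρ := z % 2 ^ k
    set y := z / 2 ^ k
    set y' := z' / 2 ^ k
    by_cases hh : (ρ + j + 1) % 2 ^ k = 0
    · obtain ⟨c, hc⟩ := Nat.dvd_of_mod_eq_zero hh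
      have hc1 : c = 1 := by
        have h6 : c < 2 := by
          by_contra hcc
          push Not at hcc
          have : 2 ^ k * 2 ≤ 2 ^ k * c := Nat.mul_le_mul_left _ hcc
          omega
        have h7 : 0 < c := by
          rcases Nat.eq_zero_or_pos c with h | h
          · rw [h] at hc; omega
          · exact h
        omega
      rw [hc1] at hc
      rw [← e1, ← e2, show 2 ^ k * y + ρ + j = 2 ^ k * y + (2 ^ k - 1) by omega,
        show 2 ^ k * y' + ρ + j = 2 ^ k * y' + (2 ^ k - 1) by omega]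
      exact hole k _ _ h2
    · rw [← e1, ← e2, add_assoc, add_assoc]
      exact nohole k _ _ _ hh

theorem words_ne (k : ℕ) : ∀ z z' : ℕ, z < 2 ^ k → z' < 2 ^ k → z ≠ z' →
    ∃ j < 2 ^ (k + 1), a (z + j) ≠ a (z' + j) := by
  have aux : ∀ u v : ℕ, ∃ j < 4, a (2 * u + j) ≠ a (2 * v + 1 + j) := by
    intro u v
    rcases Nat.even_or_odd' v with ⟨w, rfl | rfl⟩
    · refine ⟨0, by norm_num, ?_⟩
      rw [add_zero, add_zero, a_even, a_odd, a_even]; simp
    · refine ⟨2, by norm_num, ?_⟩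
      rw [show 2 * u + 2 = 2 * (u + 1) by ring,
        show 2 * (2 * w + 1) + 1 + 2 = 2 * (2 * (w + 1)) + 1 by ring, a_even, a_odd, a_even]; simp
  induction k with
  | zero => intro z z' h1 h2 h3; simp at h1 h2; omega
  | succ k ih =>
    intro z z' h1 h2 h3
    have h4 : 4 ≤ 2 ^ (k + 1 + 1) := by
      have : 1 ≤ 2 ^ k := Nat.one_le_two_pow
      rw [pow_succ, pow_succ]; omega
    have hp : 2 ^ (k + 1) = 2 * 2 ^ k := by rw [pow_succ]; ring
    have hp2 : 2 ^ (k + 1 + 1) = 2 * 2 ^ (k + 1) := by rw [pow_succ]; ring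
    rcases Nat.even_or_odd' z with ⟨w, rfl | rfl⟩ <;> rcases Nat.even_or_odd' z' with ⟨w', rfl | rfl⟩
    · obtain ⟨j, hj, h⟩ := ih w w' (by omega) (by omega) (by omega)
      refine ⟨2 * j + 1, by omega, ?_⟩
      rw [show 2 * w + (2 * j + 1) = 2 * (w + j) + 1 by ring,
        show 2 * w' + (2 * j + 1) = 2 * (w' + j) + 1 by ring, a_odd, a_odd]
      simpa using h
    · obtain ⟨j, hj, h⟩ := aux w w'
      exact ⟨j, by omega, h⟩
    · obtain ⟨j, hj, h⟩ := aux w' w
      exact ⟨j, by omega, h.symm⟩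
    · obtain ⟨j, hj, h⟩ := ih w w' (by omega) (by omega) (by omega)
      refine ⟨2 * j, by omega, ?_⟩
      rw [show 2 * w + 1 + 2 * j = 2 * (w + j) + 1 by ring,
        show 2 * w' + 1 + 2 * j = 2 * (w' + j) + 1 by ring, a_odd, a_odd]
      simpa using h

theorem exists_cover (n m : ℕ) {ε : ℝ} (hm : (1 / 2 : ℝ) ^ m < ε) :
    ∃ E : Finset X, ∀ x, ∃ y ∈ E, ∀ i < n, dist (T^[i] x) (T^[i] y) < ε := by
  classical
  refine ⟨(toFinite (range (pre (n + m)))).toFinset.image (Function.invFun (pre (n + m))), fun x => ?_⟩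
  refine ⟨Function.invFun (pre (n + m)) (pre (n + m) x), Finset.mem_image_of_mem _ (by simp), ?_⟩
  intro i hi
  refine lt_of_le_of_lt ((dist_X _ _ m).mpr fun j hj => ?_) hm
  rw [T_iter, T_iter]
  have := (Function.invFun_eq (f := pre (n + m)) (b := pre (n + m) x) ⟨x, rfl⟩).symm
  exact congrFun this ⟨i + j, by omega⟩

open Classical in
theorem le_span (n k : ℕ) (hk : 2 ^ (k + 1) ≤ n) : 2 ^ k ≤ span T n (1 / 2) := by
  obtain ⟨E, hE, h⟩ := exists_span T n (1 / 2) (exists_cover n 2 (by norm_num))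
  rw [← hE]
  choose f hf hf2 using h
  have hinj : Set.InjOn (fun z => f (pt z)) (Finset.range (2 ^ k)) := by
    intro z hz z' hz' he
    by_contra hne
    obtain ⟨j, hj, hj2⟩ := words_ne k z z' (by simpa using hz) (by simpa using hz') hne
    apply hj2
    have h1 := hf2 (pt z) j (by omega)
    have h2 := hf2 (pt z') j (by omega)
    have g1 := (dist_X _ _ 1).mp (le_of_lt (by simpa using h1)) 0 (by norm_num)
    have g2 := (dist_X _ _ 1).mp (le_of_lt (by simpa using h2)) 0 (by norm_num)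
    rw [T_iter, T_iter] at g1 g2
    have he' : f (pt z) = f (pt z') := he
    rw [he'] at g1
    exact g1.trans g2.symm
  calc 2 ^ k = (Finset.range (2 ^ k)).card := by simp
    _ = ((Finset.range (2 ^ k)).image (fun z => f (pt z))).card := (Finset.card_image_of_injOn hinj).symm
    _ ≤ E.card := Finset.card_le_card (by
        intro y hy
        obtain ⟨z, _, rfl⟩ := Finset.mem_image.mp hy
        exact hf _)

theorem lower (n : ℕ) (hn : 1 ≤ n) : (n : ℝ) ≤ 4 * span T n (1 / 2) := by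
  have key : n ≤ 4 * span T n (1 / 2) := by
    rcases Nat.lt_or_ge n 2 with h | h
    · have hpos : 0 < span T n (1 / 2) := by
        obtain ⟨E, hE, h⟩ := exists_span T n (1 / 2) (exists_cover n 2 (by norm_num))
        rw [← hE, Finset.card_pos]
        obtain ⟨y, hy, _⟩ := h (pt 0)
        exact ⟨y, hy⟩
      omega
    · obtain ⟨k, hk⟩ : ∃ k, Nat.log 2 n = k + 1 := by
        have : 0 < Nat.log 2 n := Nat.log_pos (by norm_num) h
        exact ⟨Nat.log 2 n - 1, by omega⟩
      have h1 : 2 ^ (k + 1) ≤ n := by rw [← hk]; exact Nat.pow_log_le_self 2 (by omega)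
      have h2 : n < 2 ^ (k + 2) := by
        have := Nat.lt_pow_succ_log_self (b := 2) (by norm_num) n
        rwa [hk] at this
      have h3 := le_span n k h1
      have h4 : 2 ^ (k + 2) = 4 * 2 ^ k := by rw [pow_add]; ring
      omega
  exact_mod_cast key

theorem clog_bound (b N : ℕ) (hb : 1 < b) (hN : 1 ≤ N) : b ^ Nat.clog b N ≤ b * N := by
  rcases Nat.lt_or_ge N 2 with h | h
  · have : N = 1 := by omega
    rw [this]; simp; omega
  · have h5 := Nat.pow_pred_clog_lt_self (b := b) hb h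
    have h6 : 0 < Nat.clog b N := Nat.clog_pos hb h
    have h7 : b ^ (Nat.clog b N) = b * b ^ (Nat.clog b N).pred := by
      conv_lhs => rw [← Nat.succ_pred_eq_of_pos h6, pow_succ]
      ring
    rw [h7]
    exact Nat.mul_le_mul_left _ h5.le

theorem hasOrder : HasOrder T (fun n => n) := by
  refine ⟨fun ε hε => ?_, fun c _ _ h => ?_⟩
  · obtain ⟨m, hm⟩ := exists_m hε
    refine ⟨4 * (m + 1), fun n hn => ?_⟩
    have h1 := span_T_le n m hm
    have h2 := words_le (n + m) (Nat.clog 2 (n + m)) (Nat.le_pow_clog (by norm_num) _)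
    have h3 : 2 ^ (Nat.clog 2 (n + m)) ≤ 2 * (n + m) :=
      clog_bound 2 (n + m) (by norm_num) (by omega)
    have h4 : span T n ε ≤ 4 * (n + m) := by omega
    have h5 : (span T n ε : ℝ) ≤ 4 * (n + m) := by exact_mod_cast h4
    have hn' : (1 : ℝ) ≤ n := by exact_mod_cast hn
    have hm' : (0 : ℝ) ≤ m := by positivity
    nlinarith
  · obtain ⟨C, hC⟩ := h (1 / 2) (by norm_num)
    refine ⟨4 * C, fun n hn => ?_⟩
    have h1 := lower n hn
    have h2 := hC n hn
    simp only at h2 ⊢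
    linarith

theorem hyper_iter (i : ℕ) (W : NonemptyCompacts X) :
    (((hyper T continuous_T)^[i] W : NonemptyCompacts X) : Set X) = T^[i] '' (W : Set X) := by
  induction i with
  | zero => simp
  | succ i ih =>
    rw [Function.iterate_succ_apply']
    show T '' (((hyper T continuous_T)^[i] W : NonemptyCompacts X) : Set X) = _
    rw [ih, ← image_comp, ← Function.iterate_succ']

theorem span_hyper_le (n m : ℕ) {ε : ℝ} (hm : (1 / 2 : ℝ) ^ m < ε) :
    span (hyper T continuous_T) n ε ≤ (range (pat n m)).ncard := by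
  refine (span_le_ncard (hyper T continuous_T) n ε
    (fun (W : NonemptyCompacts X) (i : Fin n) => (fun x => pre m (T^[i] x)) '' (W : Set X))
    (toFinite _) ?_).trans (ncard_le_ncard ?_ (toFinite _))
  · intro W W' h i hi
    refine lt_of_le_of_lt ?_ hm
    rw [Metric.NonemptyCompacts.dist_eq, hyper_iter, hyper_iter]
    have h1 := congrFun h ⟨i, hi⟩
    simp only at h1
    apply Metric.hausdorffDist_le_of_mem_dist (by positivity)
    · rintro _ ⟨x, hx, rfl⟩
      have : pre m (T^[i] x) ∈ (fun x => pre m (T^[i] x)) '' (W' : Set X) := by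
        rw [← h1]; exact ⟨x, hx, rfl⟩
      obtain ⟨y, hy, e⟩ := this
      refine ⟨_, ⟨y, hy, rfl⟩, (dist_X _ _ m).mpr fun j hj => ?_⟩
      exact (congrFun e ⟨j, hj⟩).symm
    · rintro _ ⟨x, hx, rfl⟩
      have : pre m (T^[i] x) ∈ (fun x => pre m (T^[i] x)) '' (W : Set X) := by
        rw [h1]; exact ⟨x, hx, rfl⟩
      obtain ⟨y, hy, e⟩ := this
      refine ⟨_, ⟨y, hy, rfl⟩, (dist_X _ _ m).mpr fun j hj => ?_⟩
      exact (congrFun e ⟨j, hj⟩).symm
  · rintro _ ⟨W, rfl⟩
    refine ⟨{z | ∃ x ∈ (W : Set X), pre (n + m) x = wd (n + m) z}, ?_⟩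
    funext i
    ext w
    constructor
    · rintro ⟨z, ⟨x, hx, e⟩, rfl⟩
      refine ⟨x, hx, ?_⟩
      funext j
      show (T^[i] x).1 j = a (z + i + j)
      rw [T_iter, add_assoc]
      exact congrFun e ⟨i + j, by omega⟩
    · rintro ⟨x, hx, rfl⟩
      obtain ⟨z, hz⟩ := pre_mem (n + m) x
      refine ⟨z, ⟨x, hx, hz⟩, ?_⟩
      funext j
      show a (z + i + j) = (T^[i] x).1 j
      rw [T_iter, add_assoc]
      exact (congrFun hz ⟨i + j, by omega⟩).symm

theorem log_bound (m : ℕ) {ε : ℝ} (hm : (1 / 2 : ℝ) ^ m < ε) : ∃ C : ℝ, ∀ n : ℕ, 1 ≤ n →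
    Real.log (span (hyper T continuous_T) n ε) ≤ C * Real.sqrt n := by
  refine ⟨2 ^ m * (Real.log 2 + 6 * Real.log 8 * Real.sqrt (1 + m)), fun n hn => ?_⟩
  set J := Nat.clog 4 (n + m) with hJ
  have hJ1 : n + m ≤ 4 ^ J := Nat.le_pow_clog (by norm_num) _
  have hJ2 : 4 ^ J ≤ 4 * (n + m) := clog_bound 4 (n + m) (by norm_num) (by omega)
  have h1 : span (hyper T continuous_T) n ε ≤ (2 * hc J ^ 3) ^ (2 ^ m) :=
    (span_hyper_le n m hm).trans (pat_count (Nat.lt_two_pow_self).le hJ1)
  have hc1 : 1 ≤ hc J := by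
    by_contra hcon
    have hJ0 : Nat.card (range (Pool.Agent.V11108.PD.Hp (4 ^ J))) = 0 := by
      show hc J = 0
      omega
    rw [Nat.card_coe_set_eq, ncard_eq_zero (toFinite _)] at hJ0
    exact (range_nonempty _).ne_empty hJ0
  have h2 : (span (hyper T continuous_T) n ε : ℝ) ≤ (2 * (hc J : ℝ) ^ 3) ^ (2 ^ m) := by
    exact_mod_cast h1
  have hcR : (1 : ℝ) ≤ hc J := by exact_mod_cast hc1
  have h3 : (hc J : ℝ) ≤ 8 ^ (2 ^ J) := by
    have := hc_bound J
    have h4 : hc J ≤ 8 ^ (2 ^ J) := by omega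
    exact_mod_cast h4
  have hlog : Real.log (hc J) ≤ 2 ^ J * Real.log 8 := by
    calc Real.log (hc J) ≤ Real.log (8 ^ (2 ^ J)) := Real.log_le_log (by linarith) h3
      _ = 2 ^ J * Real.log 8 := by rw [Real.log_pow]; push_cast; ring
  have h8 : 0 < Real.log 8 := Real.log_pos (by norm_num)
  have hpow : (2 : ℝ) ^ J ≤ 2 * Real.sqrt (1 + m) * Real.sqrt n := by
    have e1 : (4 : ℝ) ^ J ≤ 4 * (n + m) := by exact_mod_cast hJ2
    have hn' : (1 : ℝ) ≤ n := by exact_mod_cast hn
    have hm' : (0 : ℝ) ≤ m := by positivity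
    have e2 : (4 : ℝ) ^ J ≤ 4 * ((1 + m) * n) := by nlinarith
    have e3 : ((2 : ℝ) ^ J) ^ 2 = 4 ^ J := by
      rw [← pow_mul, mul_comm, pow_mul]; norm_num
    have e4 : (2 * Real.sqrt (1 + m) * Real.sqrt n) ^ 2 = 4 * ((1 + m) * n) := by
      rw [mul_pow, mul_pow, Real.sq_sqrt (by positivity), Real.sq_sqrt (by positivity)]; ring
    have e5 : ((2 : ℝ) ^ J) ^ 2 ≤ (2 * Real.sqrt (1 + m) * Real.sqrt n) ^ 2 := by rw [e3, e4]; exact e2
    exact (pow_le_pow_iff_left₀ (by positivity) (by positivity) (by norm_num)).mp e5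
  have hs1 : (1 : ℝ) ≤ Real.sqrt n := by
    rw [Real.one_le_sqrt]; exact_mod_cast hn
  rcases Nat.eq_zero_or_pos (span (hyper T continuous_T) n ε) with h0 | hpos
  · rw [h0]
    simp only [Nat.cast_zero, Real.log_zero]
    have : 0 ≤ Real.log 2 := Real.log_nonneg (by norm_num)
    positivity
  have hposR : (0 : ℝ) < span (hyper T continuous_T) n ε := by exact_mod_cast hpos
  calc Real.log (span (hyper T continuous_T) n ε) ≤ Real.log ((2 * (hc J : ℝ) ^ 3) ^ (2 ^ m)) :=
        Real.log_le_log hposR h2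
    _ = 2 ^ m * (Real.log 2 + 3 * Real.log (hc J)) := by
        rw [Real.log_pow, Real.log_mul (by norm_num) (by positivity), Real.log_pow]; push_cast; ring
    _ ≤ 2 ^ m * (Real.log 2 * Real.sqrt n + 3 * ((2 * Real.sqrt (1 + m) * Real.sqrt n) * Real.log 8)) := by
        have : 0 ≤ Real.log 2 := Real.log_nonneg (by norm_num)
        gcongr
        · nlinarith
        · exact hlog.trans (by gcongr)
    _ = _ := by ring

theorem entropy_zero : entropy (hyper T continuous_T) = 0 := by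
  unfold entropy
  rw [ENNReal.iSup_eq_zero]
  rintro ⟨ε, hε⟩
  obtain ⟨m, hm⟩ := exists_m (show 0 < ε from hε)
  obtain ⟨C, hC⟩ := log_bound m hm
  have ht : Tendsto (fun n : ℕ => ENNReal.ofReal (C / Real.sqrt n)) atTop (𝓝 0) := by
    have h1 : Tendsto (fun n : ℕ => C / Real.sqrt n) atTop (𝓝 0) :=
      tendsto_const_nhds.div_atTop (Real.tendsto_sqrt_atTop.comp tendsto_natCast_atTop_atTop)
    have h2 := (ENNReal.continuous_ofReal.tendsto 0).comp h1
    simpa [Function.comp_def] using h2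
  have h2 : ∀ᶠ n : ℕ in atTop, ENNReal.ofReal (Real.log (span (hyper T continuous_T) n ε) / n) ≤
      ENNReal.ofReal (C / Real.sqrt n) := by
    filter_upwards [eventually_ge_atTop 1] with n hn
    apply ENNReal.ofReal_le_ofReal
    have hn' : (0 : ℝ) < n := by exact_mod_cast hn
    have hs : 0 < Real.sqrt n := Real.sqrt_pos.mpr hn'
    rw [div_le_div_iff₀ hn' hs]
    have h3 := hC n hn
    have h4 : Real.sqrt n * Real.sqrt n = n := Real.mul_self_sqrt hn'.le
    calc Real.log (span (hyper T continuous_T) n ε) * Real.sqrt n ≤ (C * Real.sqrt n) * Real.sqrt n := by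
          gcongr
      _ = C * n := by rw [mul_assoc, h4]
  exact (tendsto_of_tendsto_of_tendsto_of_le_of_le' tendsto_const_nhds ht
    (Eventually.of_forall fun _ => bot_le) h2).limsup_eq

/-- There are a nonempty compact metric space `X` and a continuous `T : X → X` with `o(T) = [n]`
whose induced hyperspace map has topological entropy zero. -/
theorem result : ∃ (X : Type) (_ : MetricSpace X) (_ : CompactSpace X) (_ : Nonempty X) (T : X → X)
    (hT : Continuous T), HasOrder T (fun n => (n : ℝ)) ∧ entropy (hyper T hT) = 0 :=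
  ⟨X, inferInstance, inferInstance, inferInstance, T, continuous_T, hasOrder, entropy_zero⟩

end Pool.Agent.Results.MP_2aac2f_an.PeriodDoubling
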